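import Pool.Graph.R_pool_sql_team_ae5b0c61.H57.RcMain

set_option autoImplicit false

namespace Pool.Agent.KS6_77.RcD

open Set Topology Cardinal
open Pool.Agent.H57.Pr

abbrev Om2 : Type := (Order.succ ℵ₁ : Cardinal.{0}).ord.ToType

theorem main : ∃ (X : Set (Om2 → Bool)) (p : X),
    (∀ D : Set (X → ℝ), D ⊆ {f : X → ℝ | Continuous f} → DiscreteTopology D →
      (∃ Q : Set X, Q.Countable ∧ ∀ f ∈ closure D ∩ {f : X → ℝ | Continuous f},
        ∀ g ∈ closure D ∩ {f : X → ℝ | Continuous f}, EqOn f g Q → f = g) ∧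
      ∀ Z ⊆ closure D ∩ {f : X → ℝ | Continuous f},
        ∃ (ι : Type) (e : Z → (ι → ℝ)), IsClosedEmbedding e) ∧
    (¬ ∃ (ι : Type) (e : {f : X → ℝ | Continuous f} → (ι → ℝ)), IsClosedEmbedding e) ∧
    p ∈ closure ({p}ᶜ : Set X) ∧ ∀ Q : Set X, Q.Countable → p ∉ Q →
      ∃ U : Set X, IsClopen U ∧ p ∈ U ∧ Disjoint U Q := by
  classical
  obtain ⟨X, p, h1, h2, h3⟩ := core
  have h4 : ∀ Q : Set X, Q.Countable → p ∉ Q →
      ∃ U : Set X, IsClopen U ∧ p ∈ U ∧ Disjoint U Q := by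
    intro Q hQ hp
    obtain ⟨α, a1, a2⟩ := h3 Q hQ
    refine ⟨(fun z : X => z.1 α) ⁻¹' {true}, (isClopen_discrete _).preimage
      ((continuous_apply α).comp continuous_subtype_val), a1, disjoint_left.2 fun z hz hzQ => ?_⟩
    have h5 := a2 z hzQ (fun e => hp (e ▸ hzQ))
    have h6 : z.1 α = true := hz
    rw [h5] at h6
    exact absurd h6 (by simp)
  have h5 : p ∈ closure ({p}ᶜ : Set X) := by
    rw [mem_closure_iff_nhds]
    intro U hU
    obtain ⟨F, hF⟩ := agree' hU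
    obtain ⟨z, z1, z2⟩ := h2 F
    exact ⟨z, hF z z2, z1⟩
  refine ⟨X, p, fun D hD hDd => ?_, ?_, h5, h4⟩
  · obtain ⟨q, hq⟩ := h1 D (fun d hd => hD hd) hDd
    refine ⟨⟨range q, countable_range q, fun f hf g hg h => ?_⟩, fun Z hZ => ?_⟩
    · exact (hq f hf.1 g hg.1 hf.2 hg.2 fun n => (h (mem_range_self n)).symm).symm
    · exact rc_of_sep Z q fun f hf g hg k =>
        hq f (hZ hf).1 g (hZ hg).1 (hZ hf).2 (hZ hg).2 k
  · refine not_rc (fun z : X => if z = p then 1 else 0) (fun hc => ?_) (fun Q hQ => ?_)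
    · have h6 : IsOpen {z : X | (if z = p then (1 : ℝ) else 0) ≠ 0} :=
        isOpen_ne.preimage hc
      have h7 : {z : X | (if z = p then (1 : ℝ) else 0) ≠ 0} = {p} := by
        ext z
        by_cases hz : z = p <;> simp [hz]
      rw [h7] at h6
      obtain ⟨z, z1, z2⟩ := mem_closure_iff.1 h5 {p} h6 rfl
      exact z2 z1
    · obtain ⟨U, hU, hpU, hUQ⟩ := h4 (Q \ {p}) (hQ.mono sdiff_subset) (fun h => h.2 rfl)
      refine ⟨U.indicator fun _ => 1, hU.continuous_indicator continuous_const, fun z hz => ?_⟩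
      by_cases hzp : z = p
      · subst hzp
        simp [hpU]
      · have : z ∉ U := fun h => disjoint_left.1 hUQ h ⟨hz, hzp⟩
        simp [this, hzp]

end Pool.Agent.KS6_77.RcD
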